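import Pool.Agent.J4H25.NPK.Fb
import Pool.Agent.J4H25.NPU.Gen
import Pool.Agent.J4H25.NPB.Main

set_option autoImplicit false

/-!
# No pair is complete for procedures with `O(|x| ^ k)` questions
-/

namespace Pool.Agent.J4H25.NPK

open MeasureTheory Filter Pool.Agent.NPC Pool.Agent.H628R3.RO Pool.Agent.J4H63.ESY Pool.Agent.J4H45.OPT
open Pool.Agent.J4H45.EXP (T wds T_strictMono le_T T_pos two_pow_T_le two_pow_T_lt mem_wds card_wds)
open Pool.Agent.J4H25.NPP Pool.Agent.J4H25.NPB

section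

variable {O : Oracle → Oracle} (E : Emb2 O) {M : ℕ → Alg} {p : ℕ → Polynomial ℕ} {K i0 : ℕ}
  (ok : Ok3 M p K i0)

include E ok in
theorem ae_K : ∀ᵐ A ∂randomOracle,
    (∀ i ≥ i0, A ∉ Er O M p K i) →
    (∀ᶠ i in atTop, ∀ c < 2, ∀ c' < 2, A ∉ TwB 3 c c' i (lvG (Cap3 O M p K) i0 A i)) ∧
    ∀ (h : ℕ) (P : Polynomial ℕ), P.natDegree < 2 ^ h →
      ∀ (MF : Alg) (L : ℕ) (σ : Finset (List Bool)) (N : ℕ), ∃ i ≥ N,
        A ∈ FlK O M p h P L σ MF i (lvG (Cap3 O M p K) i0 A i) := by
  have h1 : ∀ᵐ A ∂randomOracle, ∀ (h : ℕ) (P : Polynomial ℕ) (MF : Alg) (L : ℕ)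
      (σ : Finset (List Bool)) (N c c' : ℕ), P.natDegree < 2 ^ h →
      c < 2 → c' < 2 → (∀ k, A ∉ Er O M p K (i0 + k)) →
      (∀ᶠ k in atTop, A ∉ AtG (Cap3 O M p K) i0 (i0 + k) (fun l => TwB 3 c c' (i0 + k) l)) ∧
      ∃ k ≥ N, A ∈ AtG (Cap3 O M p K) i0 (i0 + k) (fun l => FlK O M p h P L σ MF (i0 + k) l) := by
    rw [ae_all_iff]; intro h
    rw [ae_all_iff]; intro P
    rw [ae_all_iff]; intro MF
    rw [ae_all_iff]; intro L
    rw [ae_all_iff]; intro σ
    rw [ae_all_iff]; intro N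
    rw [ae_all_iff]; intro c
    rw [ae_all_iff]; intro c'
    by_cases hP : P.natDegree < 2 ^ h
    · by_cases hc : c < 2
      · by_cases hc' : c' < 2
        · obtain ⟨i1, hi1, hL, hf⟩ := fail_boundK E ok h P hP L σ MF
          have h2 := Pool.Agent.J4H25.NPU.key_genU (Cp := Cap3 O M p K) (i0 := i0) (a := bx 3)
            (fun i hi l => loc_Cap3 E ok hi l) (sum_bx1 3)
            (v := fun m => (2⁻¹ : ENNReal) ^ (bx 3 m))
            (fun m => ENNReal.pow_ne_top (by simp)) (sum_bx2 3)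
            (κ := 4 * 4 ^ 3) (ENNReal.mul_ne_top (by norm_num) (ENNReal.pow_ne_top (by norm_num)))
            (Er := Er O M p K) (fun i hi => loc_Er' E ok.ok2.ok hi)
            (fun i hi m R hR => cap_bound3 E ok hi m hR)
            (Bt := fun i l => TwB 3 c c' i l) (fun i hi l hl => loc_TwB ok.ok2 hi hl hc hc')
            (fun i _ m R hR => two_boundB 3 c c' i m hR)
            (Fs := fun i l => FlK O M p h P L σ MF i l) hi1 hL hf N
          filter_upwards [h2] with A hA _ _ _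
          exact hA
        · exact Filter.Eventually.of_forall fun A _ _ h => absurd h hc'
      · exact Filter.Eventually.of_forall fun A _ h => absurd h hc
    · exact Filter.Eventually.of_forall fun A h => absurd h hP
  filter_upwards [h1] with A hA hE
  have hE' : ∀ k, A ∉ Er O M p K (i0 + k) := fun k => hE _ (by omega)
  have h3 : ∀ c c' : ℕ, c < 2 → c' < 2 →
      ∀ᶠ i in atTop, A ∉ TwB 3 c c' i (lvG (Cap3 O M p K) i0 A i) := by
    intro c c' hc hc'
    obtain ⟨N, hN⟩ := eventually_atTop.1 (hA 0 0 (M 0) 0 ∅ 0 c c' (by simp) hc hc' hE').1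
    refine eventually_atTop.2 ⟨i0 + N, fun i hi => ?_⟩
    obtain ⟨k, rfl⟩ : ∃ k, i = i0 + k := ⟨i - i0, by omega⟩
    intro h1
    exact hN k (by omega) ((mem_AtG (Cap3 O M p K) i0).2 h1)
  refine ⟨?_, fun h P hP MF L σ N => ?_⟩
  · filter_upwards [h3 0 0 (by norm_num) (by norm_num), h3 0 1 (by norm_num) (by norm_num),
      h3 1 0 (by norm_num) (by norm_num), h3 1 1 (by norm_num) (by norm_num)] with i a b d f
    intro c hc c' hc'
    interval_cases c <;> interval_cases c' <;> assumption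
  · obtain ⟨k, hk, h⟩ := (hA h P MF L σ N 0 0 hP (by norm_num) (by norm_num) hE').2
    exact ⟨i0 + k, by omega, (mem_AtG (Cap3 O M p K) i0).1 h⟩

end

/-! ### The theorem -/

/-- Every disjoint pair `(C, D)` of `NP` sets (relative to `B`) has a separator `S` such that for
every `k` there is a disjoint pair of nonempty tally `UP` sets such that, for every polynomial `P` of
degree at most `k`, every polynomial-time procedure with at most `P(|x|)` (adaptive) questions to `S`
errs on this pair, on infinitely many inputs `x`. -/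
def NoHardPairK (B : Oracle) : Prop :=
  ∀ C D : Set (List Bool), IsPair (IsNP B) C D →
    ∃ S : List Bool → Bool, IsSep C D S ∧ ∀ k : ℕ,
      ∃ X Y : Set (List Bool), IsPair (IsUP B) X Y ∧ X.Nonempty ∧ Y.Nonempty ∧
        (∀ x, x ∈ X ∨ x ∈ Y → ∃ n, x = List.replicate n false) ∧
        ∀ P : Polynomial ℕ, P.natDegree ≤ k →
          ∀ r : List Bool → List Bool, IsFP B r → ∀ N : ℕ, ∃ x : List Bool, N ≤ x.length ∧
            (x ∈ X ∧ runQ r S x (P.eval x.length) [] = false ∨
              x ∈ Y ∧ runQ r S x (P.eval x.length) [] = true)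

theorem mainK {O : Oracle → Oracle} (E : Emb2 O) :
    ∀ᵐ A ∂randomOracle, NoHardPairK (O A) := by
  classical
  have hex : ∀ (M : ℕ → Alg) (p : ℕ → Polynomial ℕ), ∃ K i0, Ok3 M p K i0 :=
    exists_ok3
  choose K i0 ok using hex
  have h1 : ∀ᵐ A ∂randomOracle, ∀ (M0 M1 : Alg) (p0 p1 : Polynomial ℕ),
      (∀ i ≥ i0 (two M0 M1) (two p0 p1),
        A ∉ Er O (two M0 M1) (two p0 p1) (K (two M0 M1) (two p0 p1)) i) →
      (∀ᶠ i in atTop, ∀ c < 2, ∀ c' < 2, A ∉ TwB 3 c c' i
        (lvG (Cap3 O (two M0 M1) (two p0 p1) (K (two M0 M1) (two p0 p1)))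
          (i0 (two M0 M1) (two p0 p1)) A i)) ∧
      ∀ (h : ℕ) (P : Polynomial ℕ), P.natDegree < 2 ^ h →
        ∀ (MF : Alg) (L : ℕ) (σ : Finset (List Bool)) (N : ℕ), ∃ i ≥ N,
        A ∈ FlK O (two M0 M1) (two p0 p1) h P L σ MF i
          (lvG (Cap3 O (two M0 M1) (two p0 p1) (K (two M0 M1) (two p0 p1)))
            (i0 (two M0 M1) (two p0 p1)) A i) := by
    rw [ae_all_iff]
    intro M0
    rw [ae_all_iff]
    intro M1
    rw [ae_all_iff]
    intro p0
    rw [ae_all_iff]
    intro p1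
    exact ae_K E (ok (two M0 M1) (two p0 p1))
  filter_upwards [h1] with A hA
  rintro C D ⟨⟨V0, p0, ⟨M0, hM0⟩, hC⟩, ⟨V1, p1, ⟨M1, hM1⟩, hD⟩, hdis⟩
  have hA' := hA M0 M1 p0 p1
  have ok' := ok (two M0 M1) (two p0 p1)
  have hm0 : ∀ q, Mem (two M0 M1 0) (two p0 p1 0) (O A) q ↔ q ∈ C := by
    intro q
    rw [hC q]
    unfold Mem two
    simp only [if_true]
    refine exists_congr fun u => and_congr_right fun _ => ?_
    rw [hM0, Option.some.injEq]
  have hm1 : ∀ q, Mem (two M0 M1 1) (two p0 p1 1) (O A) q ↔ q ∈ D := by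
    intro q
    rw [hD q]
    unfold Mem two
    simp only [one_ne_zero, if_false]
    refine exists_congr fun u => and_congr_right fun _ => ?_
    rw [hM1, Option.some.injEq]
  generalize two M0 M1 = M at *
  generalize two p0 p1 = p at *
  generalize K M p = K' at *
  generalize i0 M p = i0' at *
  have hE : ∀ i ≥ i0', A ∉ Er O M p K' i := by
    rintro i - ⟨q, -, h0, h1⟩
    exact hdis q ⟨(hm0 q).1 h0, (hm1 q).1 h1⟩
  obtain ⟨hev, hfl⟩ := hA' hE
  obtain ⟨N1, hN1⟩ := eventually_atTop.1 hev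
  -- the first stage
  have hi1 : ∀ k : ℕ, ∃ i1, N1 ≤ i1 ∧ i0' ≤ i1 ∧ 6 + 5 ^ 2 ^ k ≤ i1 := fun k =>
    ⟨max N1 (max i0' (6 + 5 ^ 2 ^ k)), le_max_left _ _,
      (le_max_left _ _).trans (le_max_right _ _), (le_max_right _ _).trans (le_max_right _ _)⟩
  choose i1 h1a h1b h1c using hi1
  have hlen : ∀ k c x, x ∈ LgK O M p K' i0' (i1 k) k A c → 5 ≤ x.length := by
    rintro k c x ⟨-, i, hi, hx, -⟩
    have h2 := congrArg List.length hx
    rw [List.length_replicate, List.length_replicate] at h2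
    have h3 := le_T i
    by_contra hlt
    push Not at hlt
    have h4 : x.length ^ 2 ^ k ≤ 5 ^ 2 ^ k := Nat.pow_le_pow_left (by omega) _
    have h5 := h1c k
    omega
  obtain ⟨W, hW⟩ : ∃ W : ℕ → ℕ → Set (List Bool), ∀ k c, W k c =
      insert (List.replicate (3 + c) false) (LgK O M p K' i0' (i1 k) k A c) := ⟨_, fun _ _ => rfl⟩
  have : Nonempty ((Σ k : ℕ, {P : Polynomial ℕ // P.natDegree ≤ k}) × Alg × ℕ) :=
    ⟨(⟨0, 0, by simp⟩, M0, 0)⟩
  obtain ⟨Mt, hMt⟩ : ∃ Mt : (Σ k : ℕ, {P : Polynomial ℕ // P.natDegree ≤ k}) × Alg × ℕ →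
      (List Bool → Bool) → Prop, ∀ ρ S, Mt ρ S ↔
      ∃ x : List Bool, ρ.2.2 ≤ x.length ∧
      (x ∈ W ρ.1.1 0 ∧ runQ (rF ρ.2.1 (O A)) S x (ρ.1.2.1.eval x.length) [] = false ∨
      x ∈ W ρ.1.1 1 ∧ runQ (rF ρ.2.1 (O A)) S x (ρ.1.2.1.eval x.length) [] = true) :=
    ⟨_, fun _ _ => Iff.rfl⟩
  have hlim : ∃ S, IsSep C D S ∧ ∀ ρ, Mt ρ S := by
    refine limit (Req := (Σ k : ℕ, {P : Polynomial ℕ // P.natDegree ≤ k}) × Alg × ℕ) (C := C)
      (D := D) hdis ?_
    rintro ⟨⟨k, P, hP⟩, MF, N⟩ S L hS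
    obtain ⟨σ, hσ⟩ : ∃ σ : Finset (List Bool), ∀ q : List Bool, q.length ≤ L →
        (decide (q ∈ σ) = S q) := by
      refine ⟨((strs L).filter (fun q => S q)).toFinset, fun q hq => ?_⟩
      have h3 : q ∈ ((strs L).filter (fun q => S q)).toFinset ↔ S q = true := by
        rw [List.mem_toFinset, List.mem_filter, mem_strs]
        exact and_iff_right hq
      cases hSq : S q with
      | true => exact decide_eq_true (h3.2 hSq)
      | false => exact decide_eq_false fun h => by rw [h3.1 h] at hSq; exact absurd hSq (by simp)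
    obtain ⟨i, hi, c, hc, hH, S1, hrun⟩ := hfl k P (lt_of_le_of_lt hP Nat.lt_two_pow_self) MF L σ
      (i1 k + N + k + 1)
    have hmemx : List.replicate (rt k i) false ∈ W k c := by
      rw [hW]
      refine Set.mem_insert_of_mem _ ⟨by rw [List.length_replicate], i, by omega, ?_, hH⟩
      rw [List.length_replicate, rt_pow (by omega)]
    obtain ⟨S', hS'⟩ : ∃ S' : List Bool → Bool, ∀ q, S' q =
        if Alw O M p L σ A q (S1 q) then S1 q else S q := ⟨_, fun q => rfl⟩
    have hrun' : RunP (rF MF (O A)) S' (fun _ => True) (List.replicate (rt k i) false)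
        (decide (c = 1)) (P.eval (rt k i)) [] :=
      hrun.change (fun _ _ => trivial) fun q hq => by rw [hS' q, if_pos hq]
    have hd1 := hrun'.runQ
    obtain ⟨L', hL'⟩ := exists_RunP (rF MF (O A)) S' (List.replicate (rt k i) false)
      (P.eval (rt k i)) []
    rw [hd1] at hL'
    refine ⟨S', L', ⟨fun q hq => ?_, fun q hq => ?_⟩, fun q hq => ?_, fun S'' hS'' => ?_⟩
    · rw [hS' q]
      split_ifs with h3
      · by_cases hql : q.length ≤ L
        · rw [h3.1 hql, hσ q hql]
          exact hS.1 q hq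
        · exact (h3.2 (by omega)).1 ((hm0 q).2 hq)
      · exact hS.1 q hq
    · rw [hS' q]
      split_ifs with h3
      · by_cases hql : q.length ≤ L
        · rw [h3.1 hql, hσ q hql]
          exact hS.2 q hq
        · exact (h3.2 (by omega)).2 ((hm1 q).2 hq)
      · exact hS.2 q hq
    · rw [hS' q]
      split_ifs with h3
      · rw [h3.1 hq, hσ q hq]
      · rfl
    · rw [hMt]
      have h4 := (hL'.change (S' := S'') (P' := fun _ => True) (fun _ _ => trivial)
        fun q hq => hS'' q hq).runQ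
      refine ⟨List.replicate (rt k i) false, ?_, ?_⟩
      · rw [List.length_replicate]
        have h5 := le_rt k i
        have h6 : N ≤ rt k i := by omega
        exact h6
      · rw [List.length_replicate]
        interval_cases c
        · exact Or.inl ⟨hmemx, by rw [h4]; rfl⟩
        · exact Or.inr ⟨hmemx, by rw [h4]; rfl⟩
  obtain ⟨S, hS, hmeet⟩ := hlim
  refine ⟨S, hS, fun k => ⟨W k 0, W k 1, ⟨?_, ?_, ?_⟩, ?_, ?_, ?_, ?_⟩⟩
  · rw [hW]
    exact IsUP.insert (isUP_LgK E ok' (h1b k) k A 0 fun i hi => hN1 i ((h1a k).trans hi)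
      0 (by norm_num) 0 (by norm_num)) _
  · rw [hW]
    exact IsUP.insert (isUP_LgK E ok' (h1b k) k A 1 fun i hi => hN1 i ((h1a k).trans hi)
      1 (by norm_num) 1 (by norm_num)) _
  · rintro x ⟨h2, h3⟩
    rw [hW, Set.mem_insert_iff] at h2 h3
    rcases h2 with h2 | h2
    · rcases h3 with h3 | h3
      · rw [h2] at h3
        exact absurd (congrArg List.length h3) (by simp)
      · have := hlen k 1 x h3
        rw [h2, List.length_replicate] at this
        omega
    · rcases h3 with h3 | h3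
      · have := hlen k 0 x h2
        rw [h3, List.length_replicate] at this
        omega
      · obtain ⟨-, i, hi, hx, w, hw, hh⟩ := h2
        obtain ⟨-, i', hi', hx', w', hw', hh'⟩ := h3
        have hii : i' = i := by
          apply T_strictMono.injective
          have e1 := congrArg List.length hx
          have e2 := congrArg List.length hx'
          simp only [List.length_replicate] at e1 e2
          omega
        subst hii
        exact hN1 i' ((h1a k).trans hi) 0 (by norm_num) 1 (by norm_num)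
          ⟨w, w', hw, hw', fun h => absurd (Prod.ext_iff.1 h).1 (by norm_num), hh, hh'⟩
  · rw [hW]
    exact Set.insert_nonempty _ _
  · rw [hW]
    exact Set.insert_nonempty _ _
  · have htal : ∀ c x, x ∈ W k c → ∃ n, x = List.replicate n false := by
      intro c x hx
      rw [hW] at hx
      rcases Set.mem_insert_iff.1 hx with h3 | ⟨h3, -⟩
      · exact ⟨_, h3⟩
      · exact ⟨_, h3⟩
    rintro x (h2 | h2)
    · exact htal 0 x h2
    · exact htal 1 x h2
  · rintro P hP r ⟨MF, hMF⟩ N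
    have hr : rF MF (O A) = r := by
      funext y
      unfold rF
      rw [hMF]
      rfl
    have h2 := (hMt (⟨k, P, hP⟩, MF, N) S).1 (hmeet (⟨k, P, hP⟩, MF, N))
    rw [hr] at h2
    exact h2

/-- Reducibility of pairs with `O(|x| ^ k)` questions: for every separator `S` of `(C, D)` there
are a polynomial `P` of degree at most `k` and a procedure with at most `P(|x|)` (adaptive) questions
to `S` which separates `(X, Y)`. -/
def RedK (B : Oracle) (k : ℕ) (X Y C D : Set (List Bool)) : Prop :=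
  ∀ S : List Bool → Bool, IsSep C D S →
    ∃ P : Polynomial ℕ, P.natDegree ≤ k ∧ ∃ r : List Bool → List Bool, IsFP B r ∧
      IsSep X Y (fun x => runQ r S x (P.eval x.length) [])

theorem NoHardPairK.no_complete {B : Oracle} (h : NoHardPairK B) (k : ℕ) :
    ¬ ∃ C D : Set (List Bool), IsPair (IsNP B) C D ∧
      ∀ X Y : Set (List Bool), IsPair (IsNP B) X Y → RedK B k X Y C D := by
  rintro ⟨C, D, hCD, hr⟩
  obtain ⟨S, hS, h4⟩ := h C D hCD
  obtain ⟨X, Y, hXY, -, -, -, h5⟩ := h4 k
  obtain ⟨P, hP, r, hr1, hr2⟩ := hr X Y ⟨IsUP.isNP hXY.1, IsUP.isNP hXY.2.1, hXY.2.2⟩ S hS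
  obtain ⟨x, -, hx | hx⟩ := h5 P hP r hr1 0
  · have := hr2.1 x hx.1
    simp only at this
    rw [hx.2] at this
    exact absurd this (by simp)
  · have := hr2.2 x hx.1
    simp only at this
    rw [hx.2] at this
    exact absurd this (by simp)

theorem redK_of_redPair {B : Oracle} {X Y C D : Set (List Bool)} (k : ℕ)
    (h : RedPair B X Y C D) : RedK B k X Y C D := by
  intro S hS
  obtain ⟨r, h1, h2⟩ := redB_of_redPair h S hS
  refine ⟨1, by simp, r, h1, ?_⟩
  simpa using h2

end Pool.Agent.J4H25.NPK
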