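import Pool.Agent.J4H25.NPB.Fb
import Pool.Agent.J4H25.NPU.Gen

set_option autoImplicit false

/-!
# Capturing by many questions
-/

namespace Pool.Agent.J4H25.NPK

open MeasureTheory Filter Pool.Agent.NPC Pool.Agent.H628R3.RO Pool.Agent.J4H63.ESY Pool.Agent.J4H45.OPT
open Pool.Agent.J4H45.EXP (T wds T_strictMono le_T T_pos two_pow_T_le two_pow_T_lt mem_wds card_wds)
open Pool.Agent.J4H25.NPP Pool.Agent.J4H25.NPB
open Pool.Agent.J4H98.NPP (mem_congr plant_congr)
open Pool.Agent.J4H81.NPP (touched off_plant hit_plant plant_union Off size_le)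
open Pool.Agent.J4H45.NPP (Wn mem_Wn card_Wn)
open Pool.Agent.H628R3.RO.M2 (measurableSet_hit)

/-- the number of questions at stage `i` -/
def qn (i : ℕ) : ℕ := 2 ^ (T i / 4)

section

variable (O : Oracle → Oracle) (M : ℕ → Alg) (p : ℕ → Polynomial ℕ) (K : ℕ)

/-- `q` is in the first set for one of the oracles `B`, `B'`, and in the second set for one of
them -/
def Cfl (B B' : Oracle) (q : List Bool) : Prop :=
  (Mem (M 0) (p 0) (O B) q ∨ Mem (M 0) (p 0) (O B') q) ∧
  (Mem (M 1) (p 1) (O B) q ∨ Mem (M 1) (p 1) (O B') q)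

open Classical in
/-- the words `w'` whose planting is in conflict with the planting of `w` at one of the
questions -/
noncomputable def row (A : Oracle) (n m k : ℕ) (Q : ℕ → List Bool) (w : List Bool) :
    Finset (List Bool) :=
  (wds n).filter fun w' => ∃ j < k,
    Cfl O M p (plant (spots m (0, w)) A) (plant (spots m (1, w')) A) (Q j)

open Classical in
/-- the words `w` whose planting is often in conflict -/
noncomputable def rows (A : Oracle) (n m k : ℕ) (Q : ℕ → List Bool) : Finset (List Bool) :=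
  (wds n).filter fun w => 2 ^ n ≤ 4 * (row O M p A n m k Q w).card

/-- the pair captures stage `i` at level `l` -/
def Cap3 (i l : ℕ) : Set Oracle :=
  {A | ∃ Q : ℕ → List Bool, (∀ j < qn i, K * (Q j).length.size ≤ T i) ∧
    2 ^ T i ≤ 4 * (rows O M p A (T i) (T i + bx 3 l) (qn i) Q).card}

end

/-- the constants are suitable -/
structure Ok3 (M : ℕ → Alg) (p : ℕ → Polynomial ℕ) (K i0 : ℕ) : Prop where
  ok2 : Ok2 M p K i0 3
  two : 2 ≤ K
  touch3 : ∀ i ≥ i0, ∀ q : List Bool, K * q.length.size ≤ T i → ∀ c < 2, ∀ u : List Bool,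
    u.length ≤ (p c).eval q.length →
      2 ^ 11 * (qn i + 1) * (M c).p.eval (pairBits q u).length ≤ 2 ^ T i
  half : ∀ i ≥ i0, (qn i + 1) * (2 * 2 ^ (T i / 2) + 1) ≤ 2 ^ T i
  deep : ∀ i ≥ i0, 40 ≤ T i

theorem exists_ok3 (M : ℕ → Alg) (p : ℕ → Polynomial ℕ) : ∃ K i0, Ok3 M p K i0 := by
  obtain ⟨K1, i1, ok1⟩ := exists_ok2 M p 3
  obtain ⟨K2, i2, ok2⟩ := Pool.Agent.J4H98.NPP.t_OK
    (fun c => ⟨(M c).D, (M c).poly, (M c).p ^ 4⟩) p
  have hK : ∀ (q : List Bool) (n : ℕ), (K1 + K2 + 2) * q.length.size ≤ n →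
      K1 * q.length.size ≤ n ∧ K2 * q.length.size ≤ n := fun q n h =>
    ⟨(Nat.mul_le_mul_right _ (by omega)).trans h, (Nat.mul_le_mul_right _ (by omega)).trans h⟩
  refine ⟨K1 + K2 + 2, i1 + i2 + 40, ⟨Ok.mono ok1.ok (by omega) (by omega), ?_, ?_, ?_⟩,
    by omega, ?_, ?_, ?_⟩
  · exact fun i hi q hq => ok1.touch i (by omega) q (hK q _ hq).1
  · exact fun i hi => ok1.big i (by omega)
  · exact fun i hi => ok1.large i (by omega)
  · intro i hi q hq' c hc u hu
    have h0 := le_T i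
    have h1 := ok2.touch i (by omega) q (hK q _ hq').2 c hc u hu
    rw [Polynomial.eval_pow] at h1
    set P := (M c).p.eval (pairBits q u).length with hP
    have h2 : qn i + 1 ≤ 2 * 2 ^ (T i / 4) := by
      have : 1 ≤ 2 ^ (T i / 4) := Nat.one_le_two_pow
      unfold qn
      omega
    have h3 : (2 ^ (T i / 4)) ^ 4 ≤ 2 ^ T i := by
      rw [← pow_mul]
      exact Nat.pow_le_pow_right (by norm_num) (Nat.div_mul_le_self _ _)
    have h4 : 2 ^ 43 ≤ 2 ^ T i * 2 ^ T i := by
      rw [← pow_add]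
      exact Nat.pow_le_pow_right (by norm_num) (by omega)
    have h5 : (2 ^ 11 * (qn i + 1) * P) ^ 4 ≤ (2 ^ T i) ^ 4 := by
      calc (2 ^ 11 * (qn i + 1) * P) ^ 4 ≤ (2 ^ 11 * (2 * 2 ^ (T i / 4)) * P) ^ 4 :=
            Nat.pow_le_pow_left (Nat.mul_le_mul_right _ (Nat.mul_le_mul_left _ h2)) 4
        _ = 2 ^ 43 * (2 ^ (T i / 4)) ^ 4 * (32 * P ^ 4) := by ring
        _ ≤ (2 ^ T i * 2 ^ T i) * 2 ^ T i * 2 ^ T i :=
            Nat.mul_le_mul (Nat.mul_le_mul h4 h3) h1
        _ = (2 ^ T i) ^ 4 := by ring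
    exact (Nat.pow_le_pow_iff_left (by norm_num)).1 h5
  · intro i hi
    have h1 := le_T i
    have h2 : qn i + 1 ≤ 2 * 2 ^ (T i / 4) := by
      have : 1 ≤ 2 ^ (T i / 4) := Nat.one_le_two_pow
      unfold qn
      omega
    have h4 : 1 ≤ 2 ^ (T i / 2) := Nat.one_le_two_pow
    calc (qn i + 1) * (2 * 2 ^ (T i / 2) + 1) ≤ (2 * 2 ^ (T i / 4)) * (4 * 2 ^ (T i / 2)) :=
          Nat.mul_le_mul h2 (by omega)
      _ = 2 ^ (3 + T i / 4 + T i / 2) := by rw [pow_add, pow_add]; ring
      _ ≤ 2 ^ T i := Nat.pow_le_pow_right (by norm_num) (by omega)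
  · intro i hi
    have h1 := le_T i
    omega

/-! ### Locality -/

section

variable {O : Oracle → Oracle} (E : Emb2 O) {M : ℕ → Alg} {p : ℕ → Polynomial ℕ} {K i0 : ℕ}
  (ok : Ok3 M p K i0)

include E ok in
theorem cfl_congr {i : ℕ} (hi : i0 ≤ i) {q : List Bool} (hq : K * q.length.size ≤ T i)
    (m : ℕ) (w w' : List Bool) {A A' : Oracle}
    (hA : ∀ x : List Bool, x.length ≤ 2 ^ T i → A x = A' x) :
    Cfl O M p (plant (spots m (0, w)) A) (plant (spots m (1, w')) A) q ↔
      Cfl O M p (plant (spots m (0, w)) A') (plant (spots m (1, w')) A') q := by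
  unfold Cfl
  rw [mem_congr E ok.ok2.ok hi hq (by norm_num : 0 < 2) (plant_congr hA),
    mem_congr E ok.ok2.ok hi hq (by norm_num : 0 < 2) (plant_congr hA),
    mem_congr E ok.ok2.ok hi hq (by norm_num : 1 < 2) (plant_congr hA),
    mem_congr E ok.ok2.ok hi hq (by norm_num : 1 < 2) (plant_congr hA)]

include E ok in
theorem rows_congr {i : ℕ} (hi : i0 ≤ i) {k : ℕ} {Q : ℕ → List Bool}
    (hQ : ∀ j < k, K * (Q j).length.size ≤ T i) (n m : ℕ) {A A' : Oracle}
    (hA : ∀ x : List Bool, x.length ≤ 2 ^ T i → A x = A' x) :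
    rows O M p A n m k Q = rows O M p A' n m k Q := by
  classical
  unfold rows row
  refine Finset.filter_congr fun w _ => ?_
  have : ((wds n).filter fun w' => ∃ j < k,
      Cfl O M p (plant (spots m (0, w)) A) (plant (spots m (1, w')) A) (Q j)) =
      ((wds n).filter fun w' => ∃ j < k,
      Cfl O M p (plant (spots m (0, w)) A') (plant (spots m (1, w')) A') (Q j)) :=
    Finset.filter_congr fun w' _ => exists_congr fun j => and_congr_right fun hj =>
      cfl_congr E ok hi (hQ j hj) m w w' hA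
  rw [this]

include E ok in
theorem loc_Cap3 {i : ℕ} (hi : i0 ≤ i) (l : ℕ) :
    Loc {x | x.length ≤ 2 ^ T i} (Cap3 O M p K i l) := by
  intro A A' hA
  refine exists_congr fun Q => and_congr_right fun hQ => ?_
  rw [rows_congr E ok hi hQ _ _ hA]

/-! ### The double planting -/

include E ok in
theorem stable {i : ℕ} (hi : i0 ≤ i) {k : ℕ} (hk : k ≤ qn i) {Q : ℕ → List Bool}
    (hQ : ∀ j < k, K * (Q j).length.size ≤ T i) (B : Oracle) :
    ∃ S : Finset (List Bool), 2 ^ 10 * S.card ≤ 2 ^ T i ∧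
      ∀ w : List Bool, w.length = T i → w ∉ S → ∀ B' : Oracle, Off w B B' →
        ∀ j < k, ∀ s < 2, Mem (M s) (p s) (O B) (Q j) → Mem (M s) (p s) (O B') (Q j) := by
  classical
  have key : ∀ j < k, ∀ s < 2, ∃ S : Finset (List Bool),
      2 ^ 11 * (qn i + 1) * S.card ≤ 2 ^ T i ∧
      ∀ w : List Bool, w.length = T i → w ∉ S → ∀ B' : Oracle, Off w B B' →
        Mem (M s) (p s) (O B) (Q j) → Mem (M s) (p s) (O B') (Q j) := by
    intro j hj s hs
    by_cases hm : Mem (M s) (p s) (O B) (Q j)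
    · obtain ⟨u, hu, ho⟩ := hm
      obtain ⟨S, hS, hf⟩ := touched E.toEmb (M s) B (pairBits (Q j) u) (T i)
      refine ⟨S, (Nat.mul_le_mul_left _ hS).trans (ok.touch3 i hi (Q j) (hQ j hj) s hs u hu),
        fun w hw hwS B' hB' _ => ⟨u, hu, ?_⟩⟩
      rw [hf w hw hwS B' hB', ho]
    · exact ⟨∅, by simp, fun _ _ _ _ _ h => absurd h hm⟩
  choose! S hS hf using key
  refine ⟨(Finset.range k).biUnion fun j => (Finset.range 2).biUnion fun s => S j s, ?_, ?_⟩
  · have h1 : ((Finset.range k).biUnion fun j => (Finset.range 2).biUnion fun s => S j s).card ≤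
        ∑ j ∈ Finset.range k, ∑ s ∈ Finset.range 2, (S j s).card :=
      Finset.card_biUnion_le.trans (Finset.sum_le_sum fun j _ => Finset.card_biUnion_le)
    have h2 : 2 ^ 11 * (qn i + 1) * ∑ j ∈ Finset.range k, ∑ s ∈ Finset.range 2, (S j s).card ≤
        k * (2 * 2 ^ T i) := by
      rw [Finset.mul_sum]
      calc ∑ j ∈ Finset.range k, 2 ^ 11 * (qn i + 1) * ∑ s ∈ Finset.range 2, (S j s).card ≤
          ∑ j ∈ Finset.range k, 2 * 2 ^ T i := by
            refine Finset.sum_le_sum fun j hj => ?_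
            rw [Finset.sum_range_succ, Finset.sum_range_one, mul_add]
            have e1 := hS j (Finset.mem_range.1 hj) 0 (by norm_num)
            have e2 := hS j (Finset.mem_range.1 hj) 1 (by norm_num)
            omega
        _ = _ := by rw [Finset.sum_const, Finset.card_range, smul_eq_mul]
    have h3 : (2 * (qn i + 1)) * (2 ^ 10 *
        ((Finset.range k).biUnion fun j => (Finset.range 2).biUnion fun s => S j s).card) ≤
        (2 * (qn i + 1)) * 2 ^ T i := by
      calc (2 * (qn i + 1)) * (2 ^ 10 *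
          ((Finset.range k).biUnion fun j => (Finset.range 2).biUnion fun s => S j s).card) =
          2 ^ 11 * (qn i + 1) *
          ((Finset.range k).biUnion fun j => (Finset.range 2).biUnion fun s => S j s).card := by
            ring
        _ ≤ 2 ^ 11 * (qn i + 1) * ∑ j ∈ Finset.range k, ∑ s ∈ Finset.range 2, (S j s).card :=
            Nat.mul_le_mul_left _ h1
        _ ≤ k * (2 * 2 ^ T i) := h2
        _ ≤ (qn i + 1) * (2 * 2 ^ T i) := Nat.mul_le_mul_right _ (by omega)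
        _ = _ := by ring
    exact Nat.le_of_mul_le_mul_left h3 (by omega)
  · intro w hw hwS B' hB' j hj s hs
    refine hf j hj s hs w hw (fun h => hwS ?_) B' hB'
    exact Finset.mem_biUnion.2 ⟨j, Finset.mem_range.2 hj,
      Finset.mem_biUnion.2 ⟨s, Finset.mem_range.2 hs, h⟩⟩

include E ok in
theorem plant_Cap3 {i : ℕ} (hi : i0 ≤ i) (l : ℕ) {A : Oracle} (hA : A ∈ Cap3 O M p K i l) :
    ∃ I' ⊆ W2 (T i), 4 ^ T i ≤ 2 * 4 ^ 3 * I'.card ∧
      ∀ t ∈ I', plant (spots (T i + bx 3 l) t.1 ∪ spots (T i + bx 3 l) t.2) A ∈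
        Er O M p K i := by
  classical
  obtain ⟨Q, hQ, hA⟩ := hA
  have hk : qn i ≤ qn i := le_rfl
  have key : ∀ (c : ℕ) (w : List Bool), ∃ S : Finset (List Bool), 2 ^ 10 * S.card ≤ 2 ^ T i ∧
      ∀ w' : List Bool, w'.length = T i → w' ∉ S → ∀ B' : Oracle,
        Off w' (plant (spots (T i + bx 3 l) (c, w)) A) B' →
        ∀ j < qn i, ∀ s < 2, Mem (M s) (p s) (O (plant (spots (T i + bx 3 l) (c, w)) A)) (Q j) →
          Mem (M s) (p s) (O B') (Q j) :=
    fun c w => stable E ok hi hk hQ _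
  choose S hS hf using key
  set G := ((wds (T i)) ×ˢ (wds (T i))).filter
    (fun t => t.2 ∈ row O M p A (T i) (T i + bx 3 l) (qn i) Q t.1) with hG
  have hGcard : 2 ^ T i * 2 ^ T i ≤ 16 * G.card := by
    have h1 : ((rows O M p A (T i) (T i + bx 3 l) (qn i) Q).sigma
        (fun w => row O M p A (T i) (T i + bx 3 l) (qn i) Q w)).card =
        ∑ w ∈ rows O M p A (T i) (T i + bx 3 l) (qn i) Q,
          (row O M p A (T i) (T i + bx 3 l) (qn i) Q w).card := Finset.card_sigma _ _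
    have h2 : ((rows O M p A (T i) (T i + bx 3 l) (qn i) Q).sigma
        (fun w => row O M p A (T i) (T i + bx 3 l) (qn i) Q w)).card ≤ G.card := by
      refine Finset.card_le_card_of_injOn (fun t => (t.1, t.2)) ?_ ?_
      · intro t ht
        rw [Finset.mem_coe, Finset.mem_sigma] at ht
        have h3 := ht.1
        have h4 := ht.2
        unfold rows at h3
        rw [Finset.mem_filter] at h3
        have h5 := h4
        unfold row at h5
        rw [Finset.mem_filter] at h5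
        rw [Finset.mem_coe, hG, Finset.mem_filter, Finset.mem_product]
        exact ⟨⟨h3.1, h5.1⟩, h4⟩
      · rintro ⟨a, b⟩ _ ⟨a', b'⟩ _ h
        simp only [Prod.mk.injEq] at h
        obtain ⟨h3, h4⟩ := h
        subst h3
        subst h4
        rfl
    have h3 : (rows O M p A (T i) (T i + bx 3 l) (qn i) Q).card * 2 ^ T i ≤
        4 * ∑ w ∈ rows O M p A (T i) (T i + bx 3 l) (qn i) Q,
          (row O M p A (T i) (T i + bx 3 l) (qn i) Q w).card := by
      rw [Finset.mul_sum, ← smul_eq_mul, ← Finset.sum_const]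
      refine Finset.sum_le_sum fun w hw => ?_
      unfold rows at hw
      exact (Finset.mem_filter.1 hw).2
    calc 2 ^ T i * 2 ^ T i ≤ (4 * (rows O M p A (T i) (T i + bx 3 l) (qn i) Q).card) * 2 ^ T i :=
          Nat.mul_le_mul_right _ hA
      _ = 4 * ((rows O M p A (T i) (T i + bx 3 l) (qn i) Q).card * 2 ^ T i) := by ring
      _ ≤ 4 * (4 * ∑ w ∈ rows O M p A (T i) (T i + bx 3 l) (qn i) Q,
          (row O M p A (T i) (T i + bx 3 l) (qn i) Q w).card) := Nat.mul_le_mul_left _ h3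
      _ ≤ 4 * (4 * G.card) := by
          rw [← h1]
          exact Nat.mul_le_mul_left _ (Nat.mul_le_mul_left _ h2)
      _ = _ := by ring
  have cw : (wds (T i)).card ≤ 2 ^ T i := (card_wds _).le
  have b0 := card_badG (wds (T i)) (wds (T i)) (S 0) (2 ^ 10) (2 ^ T i) cw (fun w _ => hS 0 w)
  have b1 := card_badG' (wds (T i)) (wds (T i)) (S 1) (2 ^ 10) (2 ^ T i) cw (fun w _ => hS 1 w)
  set B0 := ((wds (T i)) ×ˢ (wds (T i))).filter (fun t => t.2 ∈ S 0 t.1) with hB0
  set B1 := ((wds (T i)) ×ˢ (wds (T i))).filter (fun t => t.1 ∈ S 1 t.2) with hB1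
  set I0 := (G \ B0) \ B1 with hI0
  have hinj : Function.Injective (fun t : List Bool × List Bool => ((((0 : ℕ), t.1),
      ((1 : ℕ), t.2)) : Cand × Cand)) := by
    intro t t' h
    simp only [Prod.mk.injEq, true_and] at h
    exact Prod.ext h.1 h.2
  have hmem : ∀ t ∈ I0, (t.1 ∈ wds (T i) ∧ t.2 ∈ wds (T i)) ∧
      t.2 ∈ row O M p A (T i) (T i + bx 3 l) (qn i) Q t.1 ∧ t.2 ∉ S 0 t.1 ∧ t.1 ∉ S 1 t.2 := by
    intro t ht
    rw [hI0, Finset.mem_sdiff, Finset.mem_sdiff, hB0, hB1, hG, Finset.mem_filter,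
      Finset.mem_filter, Finset.mem_filter, Finset.mem_product] at ht
    obtain ⟨⟨hw, hb0⟩, hb1⟩ := ht
    exact ⟨hw.1, hw.2, fun h => hb0 ⟨hw.1, h⟩, fun h => hb1 ⟨hw.1, h⟩⟩
  refine ⟨I0.image (fun t => ((0, t.1), (1, t.2))), ?_, ?_, ?_⟩
  · intro s hs
    obtain ⟨t, ht, rfl⟩ := Finset.mem_image.1 hs
    obtain ⟨⟨m1, m2⟩, -⟩ := hmem t ht
    unfold W2
    rw [Finset.mem_filter, Finset.mem_product, mem_Wn, mem_Wn]
    exact ⟨⟨⟨by norm_num, mem_wds.1 m1⟩, by norm_num, mem_wds.1 m2⟩,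
      fun h => absurd (Prod.ext_iff.1 h).1 (by norm_num)⟩
  · rw [Finset.card_image_of_injective _ hinj]
    have g1 := Finset.le_card_sdiff B0 G
    have g2 := Finset.le_card_sdiff B1 (G \ B0)
    rw [← hI0] at g2
    have g7 : 4 ^ T i = 2 ^ T i * 2 ^ T i := by rw [← mul_pow]; norm_num
    rw [g7]
    set N := 2 ^ T i * 2 ^ T i with hN
    norm_num at b0 b1 ⊢
    omega
  · intro s hs
    obtain ⟨t, ht, rfl⟩ := Finset.mem_image.1 hs
    obtain ⟨⟨m1, m2⟩, m3, n0, n1⟩ := hmem t ht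
    unfold row at m3
    rw [Finset.mem_filter] at m3
    obtain ⟨-, j, hj, hc0, hc1⟩ := m3
    have f0 : ∀ s < 2, Mem (M s) (p s) (O (plant (spots (T i + bx 3 l) (0, t.1)) A)) (Q j) →
        Mem (M s) (p s) (O (plant (spots (T i + bx 3 l) (0, t.1) ∪
          spots (T i + bx 3 l) (1, t.2)) A)) (Q j) := by
      intro s hs
      refine hf 0 t.1 t.2 (mem_wds.1 m2) n0 _ ?_ j hj s hs
      rw [plant_union]
      exact off_plant 1 _ t.2 _
    have f1 : ∀ s < 2, Mem (M s) (p s) (O (plant (spots (T i + bx 3 l) (1, t.2)) A)) (Q j) →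
        Mem (M s) (p s) (O (plant (spots (T i + bx 3 l) (0, t.1) ∪
          spots (T i + bx 3 l) (1, t.2)) A)) (Q j) := by
      intro s hs
      refine hf 1 t.2 t.1 (mem_wds.1 m1) n1 _ ?_ j hj s hs
      rw [Finset.union_comm, plant_union]
      exact off_plant 0 _ t.1 _
    refine ⟨Q j, hQ j hj, ?_, ?_⟩
    · rcases hc0 with h | h
      · exact f0 0 (by norm_num) h
      · exact f1 0 (by norm_num) h
    · rcases hc1 with h | h
      · exact f0 1 (by norm_num) h
      · exact f1 1 (by norm_num) h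

include E ok in
theorem cap_bound3 {i : ℕ} (hi : i0 ≤ i) (m : ℕ) {R : Set Oracle}
    (hR : Loc {x | x.length ≤ T i} R) :
    (2⁻¹ : ENNReal) ^ (2 * bx 3 m) * randomOracle (R ∩ Cap3 O M p K i m) ≤
      (4 * 4 ^ 3) * randomOracle (R ∩ Er O M p K i) +
        2⁻¹ * (2⁻¹ ^ (2 * bx 3 m) * randomOracle R) := by
  classical
  have hEr : MeasurableSet (Er O M p K i) := measurableSet_of_loc (finite_length_le _)
    ((Pool.Agent.J4H98.NPP.t_LOC O E M p K i0 ok.ok2.ok).1 i hi)
  have hRm : MeasurableSet R := measurableSet_of_loc (finite_length_le _) hR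
  have h1 := Pool.Agent.J4H98.NPP.t_PL (Cand × Cand) (W2 (T i))
    (fun t => spots (T i + bx 3 m) t.1 ∪ spots (T i + bx 3 m) t.2) (2 * (T i + bx 3 m))
    (4 ^ T i / (2 * 4 ^ 3)) (R ∩ Cap3 O M p K i m) (R ∩ Er O M p K i) (hRm.inter hEr) ?_ ?_
  · refine arith3 (by have := ok.ok2.large i hi; omega) (by unfold bx; omega) (h1.trans ?_)
    gcongr
    have h2 := up2 (a := bx 3 m) hR hEr
    refine le_of_eq_of_le ?_ h2
    refine Finset.sum_congr rfl fun t _ => ?_
    congr 2
    ext A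
    simp only [Set.mem_ofPred_eq]
    rw [← ones_iff, ← ones_iff]
    constructor
    · intro h
      exact ⟨fun x hx => h x (Finset.mem_union_left _ hx),
        fun x hx => h x (Finset.mem_union_right _ hx)⟩
    · rintro ⟨h, h'⟩ x hx
      rcases Finset.mem_union.1 hx with hx | hx
      · exact h x hx
      · exact h' x hx
  · intro t _
    refine (Finset.card_union_le _ _).trans ?_
    have e1 := card_spots_le (T i + bx 3 m) t.1
    have e2 := card_spots_le (T i + bx 3 m) t.2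
    omega
  · rintro A ⟨hA, hC⟩
    obtain ⟨I', hI', hc, hp⟩ := plant_Cap3 E ok hi m hC
    refine ⟨I', hI', ?_, fun t ht => ⟨?_, hp t ht⟩⟩
    · exact Nat.div_le_of_le_mul hc
    · have ht' := hI' ht
      unfold W2 at ht'
      rw [Finset.mem_filter, Finset.mem_product, mem_Wn, mem_Wn] at ht'
      refine (plant_mem_iff hR ?_ A).2 hA
      intro x hx
      rcases Finset.mem_union.1 hx with hx | hx
      · exact lt_length_spots ht'.1.1.2 x hx
      · exact lt_length_spots ht'.1.2.2 x hx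

end

end Pool.Agent.J4H25.NPK
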