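import Pool.Agent.J4H25.NPK.Nb

set_option autoImplicit false

/-!
# Procedures with at most `P(|x|)` questions fail
-/

namespace Pool.Agent.J4H25.NPK

open MeasureTheory Filter Pool.Agent.NPC Pool.Agent.H628R3.RO Pool.Agent.J4H63.ESY Pool.Agent.J4H45.OPT
open Pool.Agent.J4H45.EXP (T wds T_strictMono le_T T_pos two_pow_T_le two_pow_T_lt mem_wds card_wds T_succ)
open Pool.Agent.J4H25.NPP Pool.Agent.J4H25.NPB
open Pool.Agent.J4H81.NPP (size_le touched hit_plant off_plant)
open Pool.Agent.J4H98.NPP (mem_congr)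

/-! ### The lengths of the inputs -/

/-- the length of the input at stage `i` -/
def rt (h i : ℕ) : ℕ := 2 ^ 2 ^ (T (i - 1) - h)

theorem rt_pow {h i : ℕ} (hi : h + 1 ≤ i) : rt h i ^ 2 ^ h = T i := by
  obtain ⟨j, rfl⟩ : ∃ j, i = j + 1 := ⟨i - 1, by omega⟩
  have h1 : h ≤ T j := by have := le_T j; omega
  unfold rt
  rw [T_succ, ← pow_mul, ← pow_add, Nat.add_sub_cancel, Nat.sub_add_cancel h1]

theorem le_rt (h i : ℕ) : i - 1 - h ≤ rt h i := by
  have h1 := le_T (i - 1)
  have h2 : T (i - 1) - h < 2 ^ (T (i - 1) - h) := Nat.lt_two_pow_self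
  have h3 : 2 ^ (T (i - 1) - h) < 2 ^ 2 ^ (T (i - 1) - h) := Nat.lt_two_pow_self
  unfold rt
  omega

theorem one_le_rt (h i : ℕ) : 1 ≤ rt h i := Nat.one_le_two_pow

theorem rt_le {h i : ℕ} (hi : h + 1 ≤ i) : rt h i ≤ T i := by
  rw [← rt_pow hi]
  exact Nat.le_self_pow (by positivity) _

/-- polynomials of small degree -/
theorem eval_le_of_deg (P : Polynomial ℕ) {h : ℕ} (hP : P.natDegree < 2 ^ h) :
    ∃ N, ∀ i ≥ N, 8 * P.eval (rt h i) + 8 ≤ T i := by
  obtain ⟨C, hC⟩ : ∃ C : ℕ, ∀ n : ℕ, 1 ≤ n → P.eval n ≤ C * n ^ P.natDegree := by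
    refine ⟨P.eval 1, fun n hn => ?_⟩
    rw [Polynomial.eval_eq_sum_range, Polynomial.eval_eq_sum_range, Finset.sum_mul]
    refine Finset.sum_le_sum fun j hj => ?_
    rw [Finset.mem_range] at hj
    rw [one_pow, mul_one]
    exact Nat.mul_le_mul_left _ (Nat.pow_le_pow_right hn (by omega))
  refine ⟨h + 1 + (8 * C + 8) + 1 + h, fun i hi => ?_⟩
  have h1 := le_rt h i
  have h2 := one_le_rt h i
  have h3 : 8 * C + 8 ≤ rt h i := by omega
  calc 8 * P.eval (rt h i) + 8 ≤ 8 * (C * rt h i ^ P.natDegree) + 8 * rt h i ^ P.natDegree := by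
        have h4 := hC _ h2
        have h5 : 1 ≤ rt h i ^ P.natDegree := Nat.one_le_pow _ _ h2
        omega
    _ = (8 * C + 8) * rt h i ^ P.natDegree := by ring
    _ ≤ rt h i * rt h i ^ P.natDegree := Nat.mul_le_mul_right _ h3
    _ = rt h i ^ (P.natDegree + 1) := by ring
    _ ≤ rt h i ^ 2 ^ h := Nat.pow_le_pow_right h2 hP
    _ = T i := rt_pow (by omega)

section

variable (O : Oracle → Oracle) (M : ℕ → Alg) (p : ℕ → Polynomial ℕ) (h : ℕ) (P : Polynomial ℕ)

/-- the procedure fails at stage `i` (if the level is `l`) for suitable answers -/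
def FlK (L : ℕ) (σ : Finset (List Bool)) (MF : Alg) (i l : ℕ) : Set Oracle :=
  {A | ∃ c, c < 2 ∧ A ∈ HevB 3 c i l ∧ ∃ S : List Bool → Bool,
    RunP (rF MF (O A)) S (fun q => Alw O M p L σ A q (S q)) (List.replicate (rt h i) false)
      (decide (c = 1)) (P.eval (rt h i)) []}

end

section

variable {O : Oracle → Oracle} (E : Emb2 O) {M : ℕ → Alg} {p : ℕ → Polynomial ℕ} {K i0 : ℕ}
  (ok : Ok3 M p K i0) (h : ℕ) (P : Polynomial ℕ)

/-- the answers given by the set `φ` -/
def ansU (L : ℕ) (σ φ : Finset (List Bool)) (q : List Bool) : Bool :=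
  if q.length ≤ L then decide (q ∈ σ) else decide (q ∈ φ)

/-- a polynomial bound for the numbers which belong to the inputs of the procedure -/
theorem bd_rt (u : Polynomial ℕ) : ∃ u' : Polynomial ℕ, ∀ i a : ℕ, h + 1 ≤ i →
    a ≤ P.eval (rt h i) → u.eval (2 * rt h i + 1 + a) ≤ u'.eval (T i) := by
  refine ⟨u.comp (Polynomial.C 2 * Polynomial.X + Polynomial.C 1 + P), fun i a hi ha => ?_⟩
  rw [Polynomial.eval_comp]
  refine poly_mono u ?_
  have h1 := rt_le hi
  have h2 := poly_mono P h1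
  simp only [Polynomial.eval_add, Polynomial.eval_mul, Polynomial.eval_C, Polynomial.eval_X]
  omega

/-- the questions are short -/
theorem size_rK (K : ℕ) (MF : Alg) : ∃ N, ∀ i ≥ N, ∀ (B : Oracle) (a : List Bool),
    a.length ≤ P.eval (rt h i) →
    K * (rF MF B (pairBits (List.replicate (rt h i) false) a)).tail.length.size ≤ T i := by
  obtain ⟨u, hu⟩ := MF.out_length
  obtain ⟨u', hu'⟩ := bd_rt h P u
  obtain ⟨N, hN⟩ := size_le u' K
  refine ⟨N + h + 1, fun i hi B a ha => hN (T i) ((by omega : N ≤ i).trans (le_T i)) _ ?_⟩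
  rw [List.length_tail]
  refine (Nat.sub_le _ _).trans (le_trans ?_ (hu' i a.length (by omega) ha))
  unfold rF
  rcases ho : MF.out B (pairBits (List.replicate (rt h i) false) a) with _ | z
  · simp
  · have := hu _ _ _ ho
    rw [length_pairBits_A3, List.length_replicate] at this
    simpa using this

include E ok in
theorem loc_FlK (L : ℕ) (σ : Finset (List Bool)) (MF : Alg) : ∃ i1 ≥ i0, ∀ i ≥ i1, ∀ l ≤ i,
    Loc {x | x.length ≤ 2 ^ T i} (FlK O M p h P L σ MF i l) := by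
  obtain ⟨qb, hq⟩ := MF.out_congr
  obtain ⟨u', hu'⟩ := bd_rt h P qb
  obtain ⟨N1, h1⟩ := eventually_atTop.1 (H529R3.Lev.poly_le_two_pow u')
  obtain ⟨N2, h2⟩ := size_rK h P K MF
  refine ⟨i0 + N1 + N2 + h + 1, by omega, fun i hi l hl => ?_⟩
  have key : ∀ A A' : Oracle, (∀ x : List Bool, x.length ≤ 2 ^ T i → A x = A' x) →
      A ∈ FlK O M p h P L σ MF i l → A' ∈ FlK O M p h P L σ MF i l := by
    rintro A A' hA ⟨c, hc, hH, S, hS⟩
    refine ⟨c, hc, (loc_HevB ok.ok2 (by omega) hl hc A A' hA).1 hH, S, ?_⟩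
    refine RunP.congr (B := P.eval (rt h i)) ?_ ?_ (by simp) hS
    · intro a ha
      unfold rF
      have h3 := le_T i
      have h4 : u'.eval (T i) ≤ 2 ^ T i := h1 (T i) (by omega)
      have e1 : MF.out (O A') (pairBits (List.replicate (rt h i) false) a) =
          MF.out (O A) (pairBits (List.replicate (rt h i) false) a) := by
        refine hq (O A') (O A) _ (2 * rt h i + 1 + a.length)
          (by rw [length_pairBits_A3, List.length_replicate]) fun x hx => ?_
        have h5 := hu' i a.length (by omega) ha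
        exact (E.loc x A A' (hA _ ((E.len x).trans (hx.trans (h5.trans h4))))).symm
      rw [e1]
    · intro a ha hP
      have h3 := h2 i (by omega) (O A) a ha
      refine ⟨hP.1, fun hL => ?_⟩
      have hA' : ∀ x : List Bool, x.length ≤ 2 ^ T i → A x = A' x := hA
      rw [← mem_congr E ok.ok2.ok (by omega) h3 (by norm_num : 0 < 2) hA',
        ← mem_congr E ok.ok2.ok (by omega) h3 (by norm_num : 1 < 2) hA']
      exact hP.2 hL
  intro A A' hA
  exact ⟨key A A' hA, key A' A fun x hx => (hA x hx).symm⟩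

include E ok in
theorem plant_FlK (hP : P.natDegree < 2 ^ h) (L : ℕ) (σ : Finset (List Bool)) (MF : Alg) :
    ∃ i1 ≥ i0, ∀ i ≥ i1, ∀ l, ∀ A ∉ Cap3 O M p K i l,
    ∃ c < 2, ∃ I' ⊆ wds (T i), 2 ^ T i ≤ 4 * I'.card ∧
      ∀ w ∈ I', plant (spots (T i + bx 3 l) (c, w)) A ∈ FlK O M p h P L σ MF i l := by
  classical
  obtain ⟨N1, h1⟩ := size_rK h P K MF
  obtain ⟨N3, h3⟩ := eval_le_of_deg P hP
  obtain ⟨u', hu'⟩ := bd_rt h P ((Polynomial.C 16 * MF.p) ^ 2)
  obtain ⟨N2, h2⟩ := Filter.eventually_atTop.1 (_root_.H529R3.Lev.poly_le_two_pow u')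
  refine ⟨i0 + N1 + N2 + N3 + h + 1, by omega, fun i hi l A hA => ?_⟩
  have hTi := le_T i
  obtain ⟨b, hb⟩ : ∃ b, b = P.eval (rt h i) := ⟨_, rfl⟩
  have hb8 : 8 * b + 8 ≤ T i := by rw [hb]; exact h3 i (by omega)
  obtain ⟨x, hx⟩ : ∃ x, x = List.replicate (rt h i) false := ⟨_, rfl⟩
  obtain ⟨Q, hQ⟩ : ∃ Q : ℕ → List Bool, ∀ j, Q j =
      (rF MF (O A) (pairBits x ((strs b).getD j []))).tail := ⟨_, fun _ => rfl⟩
  have hgetD : ∀ j, ((strs b).getD j []).length ≤ b := by
    intro j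
    by_cases hj : j < (strs b).length
    · rw [List.getD_eq_getElem _ _ hj]
      exact mem_strs.1 (List.getElem_mem hj)
    · rw [List.getD_eq_default _ _ (by omega)]
      exact Nat.zero_le _
  have hQs : ∀ j, K * (Q j).length.size ≤ T i := by
    intro j
    rw [hQ, hx]
    exact h1 i (by omega) (O A) _ (by rw [← hb]; exact hgetD j)
  have hrows : 4 * (rows O M p A (T i) (T i + bx 3 l) (qn i) Q).card < 2 ^ T i := by
    by_contra hcon
    push Not at hcon
    exact hA ⟨Q, fun j _ => hQs j, hcon⟩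
  -- the number of branches
  have hstr : (strs b).length ≤ 2 ^ (b + 1) := by
    have := length_strs b
    omega
  have hstq : (strs b).length ≤ qn i := by
    refine hstr.trans (Nat.pow_le_pow_right (by norm_num) ?_)
    omega
  -- the touched words
  have key : ∀ a : List Bool, ∃ S : Finset (List Bool),
      S.card ≤ MF.p.eval (pairBits x a).length ∧
      ∀ w : List Bool, w.length = T i → w ∉ S → ∀ c : ℕ,
        rF MF (O (plant (spots (T i + bx 3 l) (c, w)) A)) (pairBits x a) =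
          rF MF (O A) (pairBits x a) := by
    intro a
    obtain ⟨S, hS, hf⟩ := touched E.toEmb MF A (pairBits x a) (T i)
    refine ⟨S, hS, fun w hw hwS c => ?_⟩
    unfold rF
    rw [hf w hw hwS _ (off_plant c _ w A)]
  choose S hS hf using key
  set St := (strs b).toFinset.biUnion S with hSt
  have hStc : 8 * St.card ≤ 2 ^ T i := by
    obtain ⟨Z, hZ⟩ : ∃ Z, Z = MF.p.eval (2 * rt h i + 1 + b) := ⟨_, rfl⟩
    have g1 := hu' i b (by omega) (by rw [← hb])
    have g2 := h2 (T i) (by omega)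
    rw [Polynomial.eval_pow, Polynomial.eval_mul, Polynomial.eval_C, ← hZ] at g1
    have g3 : (16 * Z) ^ 2 ≤ 2 ^ T i := g1.trans g2
    have g4 : St.card ≤ (strs b).toFinset.card * Z := by
      refine Finset.card_biUnion_le_card_mul _ _ _ fun a ha => ?_
      rw [List.mem_toFinset, mem_strs] at ha
      have g5 := hS a
      rw [length_pairBits_A3, hx, List.length_replicate] at g5
      refine g5.trans ?_
      rw [hZ]
      exact poly_mono MF.p (by omega)
    have g6 : (strs b).toFinset.card ≤ 2 ^ (b + 1) := (List.toFinset_card_le _).trans hstr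
    have g7 : (8 * St.card) ^ 2 ≤ (2 ^ T i) ^ 2 := by
      calc (8 * St.card) ^ 2 ≤ (8 * (2 ^ (b + 1) * Z)) ^ 2 :=
            Nat.pow_le_pow_left (Nat.mul_le_mul_left _ (g4.trans (Nat.mul_le_mul_right _ g6))) 2
        _ = 2 ^ (2 * (b + 1)) * (8 * Z) ^ 2 := by rw [pow_mul, ← pow_mul, mul_comm 2 (b + 1), pow_mul]; ring
        _ ≤ 2 ^ T i * 2 ^ T i := by
            refine Nat.mul_le_mul (Nat.pow_le_pow_right (by norm_num) (by omega)) (le_trans ?_ g3)
            exact Nat.pow_le_pow_left (by omega) 2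
        _ = (2 ^ T i) ^ 2 := by ring
    exact (Nat.pow_le_pow_iff_left (by norm_num)).1 g7
  -- the failing words
  obtain ⟨G, hG⟩ : ∃ G : ℕ → Finset (List Bool), ∀ c, G c = (wds (T i)).filter
      (fun w => plant (spots (T i + bx 3 l) (c, w)) A ∈ FlK O M p h P L σ MF i l) :=
    ⟨_, fun _ => rfl⟩
  by_contra hcon
  have hGc : ∀ c < 2, 4 * (G c).card < 2 ^ T i := by
    intro c hc
    by_contra hle
    push Not at hle
    refine hcon ⟨c, hc, G c, by rw [hG]; exact Finset.filter_subset _ _, hle, fun w hw => ?_⟩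
    rw [hG, Finset.mem_filter] at hw
    exact hw.2
  obtain ⟨w, hw, hwr, hwG, hwS⟩ : ∃ w ∈ wds (T i),
      w ∉ rows O M p A (T i) (T i + bx 3 l) (qn i) Q ∧ w ∉ G 0 ∧ w ∉ St := by
    by_contra hno
    push Not at hno
    have hsub : wds (T i) ⊆ rows O M p A (T i) (T i + bx 3 l) (qn i) Q ∪ G 0 ∪ St := by
      intro w hw
      rw [Finset.mem_union, Finset.mem_union]
      by_contra hn
      push Not at hn
      exact hn.2 (hno w hw hn.1.1 hn.1.2)
    have g1 := Finset.card_le_card hsub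
    have g2 := Finset.card_union_le (rows O M p A (T i) (T i + bx 3 l) (qn i) Q ∪ G 0) St
    have g3 := Finset.card_union_le (rows O M p A (T i) (T i + bx 3 l) (qn i) Q) (G 0)
    have g4 := hGc 0 (by norm_num)
    rw [card_wds] at g1
    omega
  have hrow : 4 * (row O M p A (T i) (T i + bx 3 l) (qn i) Q w).card < 2 ^ T i := by
    by_contra hle
    push Not at hle
    refine hwr ?_
    unfold rows
    rw [Finset.mem_filter]
    exact ⟨hw, hle⟩
  obtain ⟨w', hw', hwr', hwG', hwS'⟩ : ∃ w' ∈ wds (T i),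
      w' ∉ row O M p A (T i) (T i + bx 3 l) (qn i) Q w ∧ w' ∉ G 1 ∧ w' ∉ St := by
    by_contra hno
    push Not at hno
    have hsub : wds (T i) ⊆ row O M p A (T i) (T i + bx 3 l) (qn i) Q w ∪ G 1 ∪ St := by
      intro w' hw'
      rw [Finset.mem_union, Finset.mem_union]
      by_contra hn
      push Not at hn
      exact hn.2 (hno w' hw' hn.1.1 hn.1.2)
    have g1 := Finset.card_le_card hsub
    have g2 := Finset.card_union_le (row O M p A (T i) (T i + bx 3 l) (qn i) Q w ∪ G 1) St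
    have g3 := Finset.card_union_le (row O M p A (T i) (T i + bx 3 l) (qn i) Q w) (G 1)
    have g4 := hGc 1 (by norm_num)
    rw [card_wds] at g1
    omega
  have hncf : ∀ j < qn i, ¬ Cfl O M p (plant (spots (T i + bx 3 l) (0, w)) A)
      (plant (spots (T i + bx 3 l) (1, w')) A) (Q j) := by
    intro j hj hc
    refine hwr' ?_
    unfold row
    rw [Finset.mem_filter]
    exact ⟨hw', j, hj, hc⟩
  obtain ⟨v, hv⟩ : ∃ v : ℕ → List Bool, ∀ c, v c = if c = 0 then w else w' := ⟨_, fun _ => rfl⟩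
  have hv0 : v 0 = w := by rw [hv, if_pos rfl]
  have hv1 : v 1 = w' := by rw [hv, if_neg (by norm_num)]
  obtain ⟨φ, hφ⟩ : ∃ φ : Finset (List Bool), φ = ((Finset.range (qn i)).image Q).filter
      (fun q => Mem (M 0) (p 0) (O (plant (spots (T i + bx 3 l) (0, v 0)) A)) q ∨
        Mem (M 0) (p 0) (O (plant (spots (T i + bx 3 l) (1, v 1)) A)) q) := ⟨_, rfl⟩
  have hφm : ∀ j < qn i, (Q j ∈ φ ↔
      (Mem (M 0) (p 0) (O (plant (spots (T i + bx 3 l) (0, v 0)) A)) (Q j) ∨
        Mem (M 0) (p 0) (O (plant (spots (T i + bx 3 l) (1, v 1)) A)) (Q j))) := by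
    intro j hj
    rw [hφ, Finset.mem_filter]
    exact and_iff_right (Finset.mem_image_of_mem Q (Finset.mem_range.2 hj))
  obtain ⟨d, hd⟩ : ∃ d, d = runQ (rF MF (O A)) (ansU L σ φ) x b [] := ⟨_, rfl⟩
  obtain ⟨c, hc, hcd⟩ : ∃ c < 2, decide (c = 1) = d := by
    cases d
    · exact ⟨0, by norm_num, by simp⟩
    · exact ⟨1, by norm_num, by simp⟩
  have hcons : ∀ j < qn i,
      (Mem (M 0) (p 0) (O (plant (spots (T i + bx 3 l) (c, v c)) A)) (Q j) → Q j ∈ φ) ∧
      (Mem (M 1) (p 1) (O (plant (spots (T i + bx 3 l) (c, v c)) A)) (Q j) → Q j ∉ φ) := by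
    intro j hj
    have hn := hncf j hj
    rw [← hv0, ← hv1] at hn
    unfold Cfl at hn
    interval_cases c
    · refine ⟨fun h => (hφm j hj).2 (Or.inl h), fun h h' => ?_⟩
      exact hn ⟨(hφm j hj).1 h', Or.inl h⟩
    · refine ⟨fun h => (hφm j hj).2 (Or.inr h), fun h h' => ?_⟩
      exact hn ⟨(hφm j hj).1 h', Or.inr h⟩
  have hvl : (v c).length = T i := by
    interval_cases c
    · rw [hv0]; exact mem_wds.1 hw
    · rw [hv1]; exact mem_wds.1 hw'
  have hvS : v c ∉ St := by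
    interval_cases c
    · rw [hv0]; exact hwS
    · rw [hv1]; exact hwS'
  have hvG : v c ∉ G c := by
    interval_cases c
    · rw [hv0]; exact hwG
    · rw [hv1]; exact hwG'
  refine hvG ?_
  rw [hG, Finset.mem_filter]
  refine ⟨mem_wds.2 hvl, c, hc, ⟨v c, hvl, hit_plant c _ (v c) A⟩, ansU L σ φ, ?_⟩
  have hS' : ∀ a : List Bool, a.length ≤ b → v c ∉ S a := by
    intro a ha h
    refine hvS ?_
    rw [hSt]
    exact Finset.mem_biUnion.2 ⟨a, List.mem_toFinset.2 (mem_strs.2 ha), h⟩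
  obtain ⟨L', hL'⟩ := exists_RunP (rF MF (O A)) (ansU L σ φ) x b []
  rw [← hd, ← hcd] at hL'
  rw [← hx, ← hb]
  refine RunP.congr (B := b) (fun a ha => hf a (v c) hvl (hS' a ha) c) (fun a ha _ => ?_)
    (by simp) hL'
  obtain ⟨j, hj, hja⟩ := List.getElem_of_mem (mem_strs.2 ha)
  have hqj : (rF MF (O A) (pairBits x a)).tail = Q j := by
    rw [hQ, List.getD_eq_getElem _ _ hj, hja]
  rw [hqj]
  have hcj := hcons j (by omega)
  refine ⟨fun h => ?_, fun h => ?_⟩
  · unfold ansU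
    rw [if_pos h]
  · unfold ansU
    rw [if_neg (by omega), decide_eq_true_eq, decide_eq_false_iff_not]
    exact hcj

include E ok in
theorem fail_boundK (hP : P.natDegree < 2 ^ h) (L : ℕ) (σ : Finset (List Bool)) (MF : Alg) :
    ∃ i1 ≥ i0, (∀ i ≥ i1, ∀ l ≤ i,
    Loc {x | x.length ≤ 2 ^ T i} (FlK O M p h P L σ MF i l)) ∧
    ∀ i ≥ i1, ∀ m ≤ i, ∀ R : Set Oracle, Loc {x | x.length ≤ T i} R →
      (2⁻¹ : ENNReal) ^ (bx 3 m) * randomOracle (R ∩ (Cap3 O M p K i m)ᶜ) ≤
        4 * randomOracle (R ∩ FlK O M p h P L σ MF i m) +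
          16 * 2⁻¹ ^ (2 * bx 3 m) * randomOracle R := by
  classical
  obtain ⟨i1, hi1, hL⟩ := loc_FlK E ok h P L σ MF
  obtain ⟨i2, hi2, hC⟩ := plant_FlK E ok h P hP L σ MF
  refine ⟨max i1 i2, le_trans hi1 (le_max_left _ _),
    fun i hi => hL i (le_trans (le_max_left _ _) hi), ?_⟩
  intro i hi m hm R hR
  have hi' : i1 ≤ i := le_trans (le_max_left _ _) hi
  have hi'' : i2 ≤ i := le_trans (le_max_right _ _) hi
  have hFl : MeasurableSet (FlK O M p h P L σ MF i m) :=
    measurableSet_of_loc (finite_length_le _) (hL i hi' m hm)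
  have hRm : MeasurableSet R := measurableSet_of_loc (finite_length_le _) hR
  have h1 := Pool.Agent.J4H98.NPP.t_PL (ℕ × List Bool) (Finset.range 2 ×ˢ wds (T i))
    (fun κ => spots (T i + bx 3 m) κ) (T i + bx 3 m)
    (2 ^ T i / 4) (R ∩ (Cap3 O M p K i m)ᶜ) (R ∩ FlK O M p h P L σ MF i m) (hRm.inter hFl) ?_ ?_
  · refine arith2 (two_le_T ok.ok2.ok (hi2.trans hi'')) (h1.trans ?_)
    gcongr
    have h2 := (Pool.Agent.J4H45.NPP.t_UP (T i) (bx 3 m) R (FlK O M p h P L σ MF i m) hR hFl).1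
    rw [Finset.sum_product]
    refine le_of_eq_of_le ?_ h2
    refine Finset.sum_congr rfl fun c _ => Finset.sum_congr rfl fun w _ => ?_
    congr 2
    ext A
    exact ones_iff _ _ _
  · intro κ _
    exact card_spots_le _ _
  · rintro A ⟨hA, hCp⟩
    obtain ⟨c, hc, I', hI', hcard, hp⟩ := hC i hi'' m A hCp
    refine ⟨I'.image (fun w => (c, w)), ?_, ?_, ?_⟩
    · intro κ hκ
      obtain ⟨w, hw, rfl⟩ := Finset.mem_image.1 hκ
      exact Finset.mem_product.2 ⟨Finset.mem_range.2 hc, hI' hw⟩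
    · rw [Finset.card_image_of_injective _ (fun w w' h => (Prod.ext_iff.1 h).2)]
      omega
    · intro κ hκ
      obtain ⟨w, hw, rfl⟩ := Finset.mem_image.1 hκ
      exact ⟨(plant_mem_iff hR (lt_length_spots (mem_wds.1 (hI' hw))) A).2 hA, hp w hw⟩

end

end Pool.Agent.J4H25.NPK
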