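import Pool.Agent.J4H25.NPK.Main

set_option autoImplicit false

/-!
# The negative half for all finite changes
-/

namespace Pool.Agent.J4H25.NPK

open MeasureTheory Pool.Agent.H628R3.RO Pool.Agent.J4H63.ESY Pool.Agent.J4H25.NPP

theorem neg (E : Oracle) : ∀ᵐ B ∂randomOracle, ∀ S : Oracle, {y | S y = true}.Finite →
    NoHardPairK (join B (join E S)) := by
  classical
  have h1 : ∀ᵐ B ∂randomOracle, ∀ F : Finset (List Bool),
      NoHardPairK (join B (join E (fun y => decide (y ∈ F)))) := by
    rw [ae_all_iff]
    intro F
    exact mainK (embJoin2 (join E (fun y => decide (y ∈ F))))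
  filter_upwards [h1] with B hB S hS
  have h2 : S = fun y => decide (y ∈ hS.toFinset) := by
    funext y
    cases h3 : S y with
    | true => exact (decide_eq_true (hS.mem_toFinset.2 h3)).symm
    | false =>
      refine (decide_eq_false fun h4 => ?_).symm
      have h5 : S y = true := hS.mem_toFinset.1 h4
      rw [h3] at h5
      exact absurd h5 (by simp)
  have h3 := hB hS.toFinset
  rw [← h2] at h3
  exact h3

end Pool.Agent.J4H25.NPK
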